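import Mathlib

/-!
# A sound and complete axiomatization of the logic of general game models
-/

namespace Pool.Agent.Results.MP_4a7d17_lc.GameLogic

/-- The modalities: preference `le i`, epistemic indistinguishability `eps i` and freedom
`free i`, for each player `i`. -/
inductive Lab (N : Type) : Type
  | le (i : N) : Lab N
  | eps (i : N) : Lab N
  | free (i : N) : Lab N

/-- Formulas of `L_N`. -/
inductive Form (N : Type) : Type
  | atom (p : ℕ) : Form N
  | neg (φ : Form N) : Form N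
  | or (φ ψ : Form N) : Form N
  | dia (l : Lab N) (φ : Form N) : Form N

namespace Form

variable {N : Type}

/-- Implication. -/
def imp (φ ψ : Form N) : Form N := (φ.neg).or ψ

/-- The box dual to a diamond. -/
def box (l : Lab N) (φ : Form N) : Form N := (dia l φ.neg).neg

/-- Propositional evaluation, in which letters and diamond formulas count as atoms. -/
def peval (v : Form N → Prop) : Form N → Prop
  | .atom p => v (.atom p)
  | .neg φ => ¬ φ.peval v
  | .or φ ψ => φ.peval v ∨ ψ.peval v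
  | .dia l φ => v (.dia l φ)

end Form

/-- Full game models for the set `N` of players (the sets of strategy profiles of submodels are
given separately). -/
structure Game (N : Type) where
  /-- the actions of the players -/
  A : N → Type
  nonempty : ∀ i, Nonempty (A i)
  /-- the preference relations -/
  le : N → (∀ i, A i) → (∀ i, A i) → Prop
  le_refl : ∀ i σ, le i σ σ
  le_trans : ∀ i σ τ υ, le i σ τ → le i τ υ → le i σ υ
  /-- the valuation -/
  V : ℕ → Set (∀ i, A i)

/-- The accessibility relations of a full game model. -/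
def Game.Acc {N : Type} (G : Game N) : Lab N → (∀ i, G.A i) → (∀ i, G.A i) → Prop
  | .le i, σ, τ => G.le i σ τ
  | .eps i, σ, τ => σ i = τ i
  | .free i, σ, τ => ∀ j, j ≠ i → σ j = τ j

/-- Truth of a formula at a profile in the general game model given by the set `W` of strategy
profiles: all diamonds range over `W`. -/
def Game.Sat {N : Type} (G : Game N) (W : Set (∀ i, G.A i)) : (∀ i, G.A i) → Form N → Prop
  | σ, .atom p => σ ∈ G.V p
  | σ, .neg φ => ¬ G.Sat W σ φ
  | σ, .or φ ψ => G.Sat W σ φ ∨ G.Sat W σ ψ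
  | σ, .dia l φ => ∃ τ ∈ W, G.Acc l σ τ ∧ G.Sat W τ φ

/-- Validity on all general game models: this is the logic `GGM_N`. -/
def Valid {N : Type} (φ : Form N) : Prop :=
  ∀ (G : Game N) (W : Set (∀ i, G.A i)), ∀ σ ∈ W, G.Sat W σ φ

/-- The axiomatization: propositional tautologies, `K` and the duality of box and diamond for all
modalities, `T` and `4` for all modalities, `B` for `eps i` and `free i`, the inclusions
`[eps j] φ → [free i] φ` for `i ≠ j`, and `[free i] φ → [eps j] φ` if `i` and `j` are the only two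
players; modus ponens and necessitation. -/
inductive Prov {N : Type} : Form N → Prop
  | taut (φ : Form N) (h : ∀ v, φ.peval v) : Prov φ
  | k (l : Lab N) (φ ψ : Form N) : Prov (((φ.imp ψ).box l).imp ((φ.box l).imp (ψ.box l)))
  | dual₁ (l : Lab N) (φ : Form N) : Prov ((Form.dia l φ).imp ((φ.neg).box l).neg)
  | dual₂ (l : Lab N) (φ : Form N) : Prov (((φ.neg).box l).neg.imp (Form.dia l φ))
  | t (l : Lab N) (φ : Form N) : Prov ((φ.box l).imp φ)
  | four (l : Lab N) (φ : Form N) : Prov ((φ.box l).imp ((φ.box l).box l))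
  | b_eps (i : N) (φ : Form N) : Prov (φ.imp ((Form.dia (.eps i) φ).box (.eps i)))
  | b_free (i : N) (φ : Form N) : Prov (φ.imp ((Form.dia (.free i) φ).box (.free i)))
  | incl (i j : N) (hij : i ≠ j) (φ : Form N) : Prov ((φ.box (.eps j)).imp (φ.box (.free i)))
  | two (i j : N) (hij : i ≠ j) (h : ∀ k : N, k = i ∨ k = j) (φ : Form N) :
      Prov ((φ.box (.free i)).imp (φ.box (.eps j)))
  | mp (φ ψ : Form N) (h : Prov (φ.imp ψ)) (h' : Prov φ) : Prov ψ
  | nec (l : Lab N) (φ : Form N) (h : Prov φ) : Prov (φ.box l)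

/-! ### Soundness -/

section Soundness

variable {N : Type} (G : Game N) (W : Set (∀ i, G.A i))

theorem sat_imp (σ : ∀ i, G.A i) (φ ψ : Form N) :
    G.Sat W σ (φ.imp ψ) ↔ (G.Sat W σ φ → G.Sat W σ ψ) := by
  simp only [Form.imp, Game.Sat]
  tauto

theorem sat_box (σ : ∀ i, G.A i) (l : Lab N) (φ : Form N) :
    G.Sat W σ (φ.box l) ↔ ∀ τ ∈ W, G.Acc l σ τ → G.Sat W τ φ := by
  simp only [Form.box, Game.Sat]
  push Not
  rfl

theorem sat_peval (σ : ∀ i, G.A i) : ∀ φ : Form N,
    G.Sat W σ φ ↔ φ.peval fun ψ => G.Sat W σ ψ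
  | .atom p => Iff.rfl
  | .neg φ => by simp only [Game.Sat, Form.peval, sat_peval σ φ]
  | .or φ ψ => by simp only [Game.Sat, Form.peval, sat_peval σ φ, sat_peval σ ψ]
  | .dia l φ => Iff.rfl

theorem acc_refl (l : Lab N) (σ : ∀ i, G.A i) : G.Acc l σ σ := by
  cases l with
  | le i => exact G.le_refl i σ
  | eps i => rfl
  | free i => exact fun j _ => rfl

theorem acc_trans (l : Lab N) (σ τ υ : ∀ i, G.A i) (h : G.Acc l σ τ) (h' : G.Acc l τ υ) :
    G.Acc l σ υ := by
  cases l with
  | le i => exact G.le_trans i σ τ υ h h'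
  | eps i => exact Eq.trans h h'
  | free i => exact fun j hj => (h j hj).trans (h' j hj)

theorem soundness (φ : Form N) (h : Prov φ) : Valid φ := by
  intro G W
  induction h with
  | taut φ h =>
    intro σ _
    rw [sat_peval]
    exact h _
  | k l φ ψ =>
    intro σ _
    simp only [sat_imp, sat_box]
    exact fun h h' τ hτ hστ => h τ hτ hστ (h' τ hτ hστ)
  | dual₁ l φ =>
    intro σ _
    simp only [sat_imp, sat_box, Game.Sat]
    push Not
    exact fun h => h
  | dual₂ l φ =>
    intro σ _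
    simp only [sat_imp, sat_box, Game.Sat]
    push Not
    exact fun h => h
  | t l φ =>
    intro σ hσ
    simp only [sat_imp, sat_box]
    exact fun h => h σ hσ (acc_refl G l σ)
  | four l φ =>
    intro σ _
    simp only [sat_imp, sat_box]
    exact fun h τ hτ h1 υ hυ h2 => h υ hυ (acc_trans G l _ _ _ h1 h2)
  | b_eps i φ =>
    intro σ hσ
    simp only [sat_imp, sat_box, Game.Sat]
    exact fun h τ hτ h1 => ⟨σ, hσ, Eq.symm h1, h⟩
  | b_free i φ =>
    intro σ hσ
    simp only [sat_imp, sat_box, Game.Sat]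
    exact fun h τ hτ h1 => ⟨σ, hσ, fun j hj => (h1 j hj).symm, h⟩
  | incl i j hij φ =>
    intro σ hσ
    simp only [sat_imp, sat_box]
    exact fun h τ hτ h1 => h τ hτ (h1 j hij.symm)
  | two i j hij hk φ =>
    intro σ hσ
    simp only [sat_imp, sat_box]
    refine fun h τ hτ h1 => h τ hτ fun k hki => ?_
    rcases hk k with rfl | rfl
    · exact absurd rfl hki
    · exact h1
  | mp φ ψ _ _ ih ih' =>
    intro σ hσ
    have := ih σ hσ
    rw [sat_imp] at this
    exact this (ih' σ hσ)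
  | nec l φ _ ih =>
    intro σ hσ
    rw [sat_box]
    exact fun τ hτ _ => ih τ hτ

end Soundness

/-! ### Maximal consistent sets -/

section Canonical

variable {N : Type}

theorem peval_foldr (v : Form N → Prop) (φ : Form N) (L : List (Form N)) :
    (L.foldr Form.imp φ).peval v ↔ ((∀ ψ ∈ L, ψ.peval v) → φ.peval v) := by
  induction L with
  | nil => simp
  | cons ψ L ih =>
    simp only [List.foldr_cons, Form.imp, Form.peval, List.mem_cons, forall_eq_or_imp] at ih ⊢
    rw [ih]
    tauto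

theorem prov_foldr (φ : Form N) (L : List (Form N)) (h : Prov (L.foldr Form.imp φ))
    (hL : ∀ ψ ∈ L, Prov ψ) : Prov φ := by
  induction L with
  | nil => exact h
  | cons ψ L ih =>
    exact ih (Prov.mp _ _ h (hL ψ List.mem_cons_self)) fun χ hχ => hL χ (List.mem_cons_of_mem _ hχ)

/-- Tautological consequences of theorems are theorems. -/
theorem prov_taut (φ : Form N) (L : List (Form N)) (hL : ∀ ψ ∈ L, Prov ψ)
    (h : ∀ v, (∀ ψ ∈ L, ψ.peval v) → φ.peval v) : Prov φ :=
  prov_foldr φ L (Prov.taut _ fun v => (peval_foldr v φ L).2 (h v)) hL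

/-- Derivability from a set of hypotheses. -/
def Ded (Γ : Set (Form N)) (φ : Form N) : Prop :=
  ∃ L : List (Form N), (∀ ψ ∈ L, ψ ∈ Γ) ∧ Prov (L.foldr Form.imp φ)

theorem ded_mono {Γ Δ : Set (Form N)} {φ : Form N} (h : Ded Γ φ) (hΓ : Γ ⊆ Δ) : Ded Δ φ := by
  obtain ⟨L, hL, hp⟩ := h
  exact ⟨L, fun ψ hψ => hΓ (hL ψ hψ), hp⟩

theorem ded_taut {Γ : Set (Form N)} (φ : Form N) (L : List (Form N)) (hL : ∀ ψ ∈ L, Ded Γ ψ)
    (h : ∀ v, (∀ ψ ∈ L, ψ.peval v) → φ.peval v) : Ded Γ φ := by
  choose! K hK hKp using hL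
  refine ⟨(L.map K).flatten, ?_, ?_⟩
  · intro ψ hψ
    obtain ⟨M, hM, hψM⟩ := List.mem_flatten.1 hψ
    obtain ⟨χ, hχ, rfl⟩ := List.mem_map.1 hM
    exact hK χ hχ ψ hψM
  · refine prov_taut _ (L.map fun ψ => (K ψ).foldr Form.imp ψ) ?_ ?_
    · intro ψ hψ
      obtain ⟨χ, hχ, rfl⟩ := List.mem_map.1 hψ
      exact hKp χ hχ
    · intro v hv
      rw [peval_foldr]
      intro hall
      refine h v fun ψ hψ => ?_
      have := hv _ (List.mem_map.2 ⟨ψ, hψ, rfl⟩)
      rw [peval_foldr] at this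
      exact this fun χ hχ => hall χ (List.mem_flatten.2 ⟨K ψ, List.mem_map.2 ⟨ψ, hψ, rfl⟩, hχ⟩)

theorem ded_hyp {Γ : Set (Form N)} {φ : Form N} (h : φ ∈ Γ) : Ded Γ φ := by
  refine ⟨[φ], by simpa using h, Prov.taut _ fun v => ?_⟩
  rw [peval_foldr]
  exact fun h => h φ (by simp)

theorem ded_prov {Γ : Set (Form N)} {φ : Form N} (h : Prov φ) : Ded Γ φ :=
  ⟨[], by simp, h⟩

theorem ded_imp {Γ : Set (Form N)} {φ ψ : Form N} (h : Ded (Γ ∪ {φ}) ψ) :
    Ded Γ (φ.imp ψ) := by
  classical
  obtain ⟨L, hL, hp⟩ := h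
  refine ⟨L.filter fun χ => χ ∈ Γ, ?_, ?_⟩
  · intro χ hχ
    simpa using (List.mem_filter.1 hχ).2
  · refine prov_taut _ [L.foldr Form.imp ψ] (by simpa using hp) fun v hv => ?_
    have hv' := hv _ List.mem_cons_self
    rw [peval_foldr] at hv' ⊢
    intro hall
    have : φ.peval v → ψ.peval v := fun hφ => hv' fun χ hχ => by
      rcases hL χ hχ with h | h
      · exact hall χ (List.mem_filter.2 ⟨hχ, by simpa using h⟩)
      · rw [Set.mem_singleton_iff] at h
        rw [h]
        exact hφ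
    simp only [Form.imp, Form.peval]
    tauto

/-- Maximal consistent sets. -/
structure IsMCS (Γ : Set (Form N)) : Prop where
  ded : ∀ φ, Ded Γ φ → φ ∈ Γ
  neg : ∀ φ, Form.neg φ ∈ Γ ↔ φ ∉ Γ

theorem lindenbaum (Γ : Set (Form N)) (φ : Form N) (h : ¬ Ded Γ φ) :
    ∃ Δ, Γ ⊆ Δ ∧ IsMCS Δ ∧ φ ∉ Δ := by
  classical
  obtain ⟨Δ, hΓΔ, hmax⟩ := zorn_subset_nonempty {Δ : Set (Form N) | ¬ Ded Δ φ} (by
    intro c hc hchain hne
    refine ⟨⋃₀ c, ?_, fun s hs => Set.subset_sUnion_of_mem hs⟩
    rintro ⟨L, hL, hp⟩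
    have key : ∀ L : List (Form N), (∀ ψ ∈ L, ψ ∈ ⋃₀ c) → ∃ s ∈ c, ∀ ψ ∈ L, ψ ∈ s := by
      intro L
      induction L with
      | nil =>
        intro _
        obtain ⟨s, hs⟩ := hne
        exact ⟨s, hs, by simp⟩
      | cons ψ L ih =>
        intro hL
        obtain ⟨s, hs, hsL⟩ := ih fun χ hχ => hL χ (List.mem_cons_of_mem _ hχ)
        obtain ⟨t, ht, hψt⟩ := hL ψ List.mem_cons_self
        rcases hchain.total hs ht with h | h
        · refine ⟨t, ht, fun χ hχ => ?_⟩
          rcases List.mem_cons.1 hχ with rfl | hχ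
          · exact hψt
          · exact h (hsL χ hχ)
        · refine ⟨s, hs, fun χ hχ => ?_⟩
          rcases List.mem_cons.1 hχ with rfl | hχ
          · exact h hψt
          · exact hsL χ hχ
    obtain ⟨s, hs, hsL⟩ := key L hL
    exact hc hs ⟨L, hsL, hp⟩) Γ h
  have hΔ : ¬ Ded Δ φ := hmax.prop
  have hadd : ∀ ψ, ψ ∉ Δ → Ded (Δ ∪ {ψ}) φ := by
    intro ψ hψ
    by_contra hc
    have := hmax.eq_of_subset hc Set.subset_union_left
    exact hψ (this ▸ Or.inr rfl)
  have hded : ∀ ψ, Ded Δ ψ → ψ ∈ Δ := by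
    intro ψ hψ
    by_contra hc
    have h1 := ded_imp (hadd ψ hc)
    refine hΔ (ded_taut φ [ψ, ψ.imp φ] ?_ ?_)
    · intro χ hχ
      simp only [List.mem_cons, List.not_mem_nil, or_false] at hχ
      rcases hχ with rfl | rfl
      · exact hψ
      · exact h1
    · intro v hv
      simp only [List.mem_cons, List.not_mem_nil, or_false, forall_eq_or_imp, forall_eq,
        Form.imp, Form.peval] at hv
      tauto
  refine ⟨Δ, hΓΔ, ⟨hded, fun ψ => ⟨fun h1 h2 => ?_, fun h1 => ?_⟩⟩, fun hφ => hΔ (ded_hyp hφ)⟩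
  · refine hΔ (ded_taut φ [ψ, ψ.neg] ?_ ?_)
    · intro χ hχ
      simp only [List.mem_cons, List.not_mem_nil, or_false] at hχ
      rcases hχ with rfl | rfl
      · exact ded_hyp h2
      · exact ded_hyp h1
    · intro v hv
      simp only [List.mem_cons, List.not_mem_nil, or_false, forall_eq_or_imp, forall_eq,
        Form.peval] at hv
      exact absurd hv.1 hv.2
  · by_contra h2
    have h3 := ded_imp (hadd _ h1)
    have h4 := ded_imp (hadd _ h2)
    refine hΔ (ded_taut φ [ψ.imp φ, ψ.neg.imp φ] ?_ ?_)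
    · intro χ hχ
      simp only [List.mem_cons, List.not_mem_nil, or_false] at hχ
      rcases hχ with rfl | rfl
      · exact h3
      · exact h4
    · intro v hv
      simp only [List.mem_cons, List.not_mem_nil, or_false, forall_eq_or_imp, forall_eq,
        Form.imp, Form.peval] at hv
      tauto

theorem mcs_taut {Γ : Set (Form N)} (hΓ : IsMCS Γ) (φ : Form N) (L : List (Form N))
    (hL : ∀ ψ ∈ L, ψ ∈ Γ) (h : ∀ v, (∀ ψ ∈ L, ψ.peval v) → φ.peval v) : φ ∈ Γ :=
  hΓ.ded φ (ded_taut φ L (fun ψ hψ => ded_hyp (hL ψ hψ)) h)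

theorem mcs_mp {Γ : Set (Form N)} (hΓ : IsMCS Γ) {φ ψ : Form N} (h : φ.imp ψ ∈ Γ) (h' : φ ∈ Γ) :
    ψ ∈ Γ := by
  refine mcs_taut hΓ ψ [φ.imp ψ, φ] ?_ ?_
  · intro χ hχ
    simp only [List.mem_cons, List.not_mem_nil, or_false] at hχ
    rcases hχ with rfl | rfl
    · exact h
    · exact h'
  · intro v hv
    simp only [List.mem_cons, List.not_mem_nil, or_false, forall_eq_or_imp, forall_eq,
      Form.imp, Form.peval] at hv
    tauto

theorem mcs_prov {Γ : Set (Form N)} (hΓ : IsMCS Γ) {φ : Form N} (h : Prov φ) : φ ∈ Γ :=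
  hΓ.ded φ (ded_prov h)

theorem mcs_or {Γ : Set (Form N)} (hΓ : IsMCS Γ) (φ ψ : Form N) :
    φ.or ψ ∈ Γ ↔ φ ∈ Γ ∨ ψ ∈ Γ := by
  constructor
  · intro h
    by_contra hc
    push Not at hc
    have h1 := (hΓ.neg φ).2 hc.1
    exact hc.2 (mcs_taut hΓ ψ [φ.or ψ, φ.neg] (by
      intro χ hχ
      simp only [List.mem_cons, List.not_mem_nil, or_false] at hχ
      rcases hχ with rfl | rfl
      · exact h
      · exact h1) (by
      intro v hv
      simp only [List.mem_cons, List.not_mem_nil, or_false, forall_eq_or_imp, forall_eq,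
        Form.peval] at hv
      tauto))
  · rintro (h | h)
    · exact mcs_taut hΓ _ [φ] (by simpa using h) (by
        intro v hv
        simp only [List.mem_cons, List.not_mem_nil, or_false, forall_eq] at hv
        exact Or.inl hv)
    · exact mcs_taut hΓ _ [ψ] (by simpa using h) (by
        intro v hv
        simp only [List.mem_cons, List.not_mem_nil, or_false, forall_eq] at hv
        exact Or.inr hv)

/-- The canonical relations. -/
def Can (l : Lab N) (Γ Δ : Set (Form N)) : Prop := ∀ φ : Form N, φ.box l ∈ Γ → φ ∈ Δ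

theorem can_refl (l : Lab N) {Γ : Set (Form N)} (hΓ : IsMCS Γ) : Can l Γ Γ :=
  fun φ h => mcs_mp hΓ (mcs_prov hΓ (Prov.t l φ)) h

theorem can_trans (l : Lab N) {Γ Δ Θ : Set (Form N)} (hΓ : IsMCS Γ) (h : Can l Γ Δ)
    (h' : Can l Δ Θ) : Can l Γ Θ :=
  fun φ hφ => h' φ (h _ (mcs_mp hΓ (mcs_prov hΓ (Prov.four l φ)) hφ))

theorem can_symm_of_b (l : Lab N) (hl : ∀ φ : Form N, Prov (φ.imp ((Form.dia l φ).box l)))
    {Γ Δ : Set (Form N)} (hΓ : IsMCS Γ) (hΔ : IsMCS Δ) (h : Can l Γ Δ) : Can l Δ Γ := by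
  intro φ hφ
  by_contra hc
  have h1 := (hΓ.neg φ).2 hc
  have h2 := h _ (mcs_mp hΓ (mcs_prov hΓ (hl φ.neg)) h1)
  exact ((hΔ.neg _).1 hφ) h2

theorem can_symm_eps (i : N) {Γ Δ : Set (Form N)} (hΓ : IsMCS Γ) (hΔ : IsMCS Δ)
    (h : Can (.eps i) Γ Δ) : Can (.eps i) Δ Γ :=
  can_symm_of_b _ (Prov.b_eps i) hΓ hΔ h

theorem can_symm_free (i : N) {Γ Δ : Set (Form N)} (hΓ : IsMCS Γ) (hΔ : IsMCS Δ)
    (h : Can (.free i) Γ Δ) : Can (.free i) Δ Γ :=
  can_symm_of_b _ (Prov.b_free i) hΓ hΔ h

theorem can_incl (i j : N) (hij : i ≠ j) {Γ Δ : Set (Form N)} (hΓ : IsMCS Γ)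
    (h : Can (.free i) Γ Δ) : Can (.eps j) Γ Δ :=
  fun φ hφ => h φ (mcs_mp hΓ (mcs_prov hΓ (Prov.incl i j hij φ)) hφ)

theorem can_two (i j : N) (hij : i ≠ j) (hk : ∀ k : N, k = i ∨ k = j) {Γ Δ : Set (Form N)}
    (hΓ : IsMCS Γ) (h : Can (.eps j) Γ Δ) : Can (.free i) Γ Δ :=
  fun φ hφ => h φ (mcs_mp hΓ (mcs_prov hΓ (Prov.two i j hij hk φ)) hφ)

theorem box_foldr (l : Lab N) (φ : Form N) (L : List (Form N)) :
    Prov (((L.foldr Form.imp φ).box l).imp ((L.map (Form.box l)).foldr Form.imp (φ.box l))) := by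
  induction L with
  | nil =>
    refine Prov.taut _ fun v => ?_
    simp only [List.foldr_nil, List.map_nil, Form.imp, Form.peval]
    tauto
  | cons ψ L ih =>
    simp only [List.foldr_cons, List.map_cons]
    refine prov_taut _ [((ψ.imp (L.foldr Form.imp φ)).box l).imp
        ((ψ.box l).imp ((L.foldr Form.imp φ).box l)),
      ((L.foldr Form.imp φ).box l).imp ((L.map (Form.box l)).foldr Form.imp (φ.box l))] ?_ ?_
    · intro χ hχ
      simp only [List.mem_cons, List.not_mem_nil, or_false] at hχ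
      rcases hχ with rfl | rfl
      · exact Prov.k _ _ _
      · exact ih
    · intro v hv
      simp only [List.mem_cons, List.not_mem_nil, or_false, forall_eq_or_imp, forall_eq] at hv
      simp only [Form.imp, Form.peval] at hv ⊢
      tauto

/-- The existence lemma. -/
theorem exists_can (l : Lab N) (φ : Form N) {Γ : Set (Form N)} (hΓ : IsMCS Γ)
    (h : Form.dia l φ ∈ Γ) : ∃ Δ, IsMCS Δ ∧ Can l Γ Δ ∧ φ ∈ Δ := by
  have hnd : ¬ Ded {ψ : Form N | ψ.box l ∈ Γ} φ.neg := by
    rintro ⟨L, hL, hp⟩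
    have h1 : ((L.foldr Form.imp φ.neg).box l) ∈ Γ := mcs_prov hΓ (Prov.nec l _ hp)
    have h2 := mcs_mp hΓ (mcs_prov hΓ (box_foldr l φ.neg L)) h1
    have h3 : (φ.neg).box l ∈ Γ := by
      refine mcs_taut hΓ _ ((L.map (Form.box l)).foldr Form.imp (φ.neg.box l) ::
        L.map (Form.box l)) ?_ ?_
      · intro χ hχ
        rcases List.mem_cons.1 hχ with rfl | hχ
        · exact h2
        · obtain ⟨ψ, hψ, rfl⟩ := List.mem_map.1 hχ
          exact hL ψ hψ
      · intro v hv
        have := hv _ List.mem_cons_self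
        rw [peval_foldr] at this
        exact this fun ψ hψ => hv ψ (List.mem_cons_of_mem _ hψ)
    have h4 := mcs_mp hΓ (mcs_prov hΓ (Prov.dual₁ l φ)) h
    exact ((hΓ.neg _).1 h4) h3
  obtain ⟨Δ, hsub, hΔ, hφ⟩ := lindenbaum _ _ hnd
  refine ⟨Δ, hΔ, fun ψ hψ => hsub hψ, ?_⟩
  by_contra hc
  exact hφ ((hΔ.neg φ).2 hc)

theorem dia_of_can (l : Lab N) (φ : Form N) {Γ Δ : Set (Form N)} (hΓ : IsMCS Γ)
    (hΔ : IsMCS Δ) (h : Can l Γ Δ) (hφ : φ ∈ Δ) : Form.dia l φ ∈ Γ := by
  refine mcs_mp hΓ (mcs_prov hΓ (Prov.dual₂ l φ)) ((hΓ.neg _).2 fun hc => ?_)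
  exact ((hΔ.neg φ).1 (h _ hc)) hφ

end Canonical

/-! ### Unravelling -/

section Tree

variable {N : Type}

/-- A step of a path: a label and the set of formulas reached. -/
abbrev Step (N : Type) : Type := Lab N × Set (Form N)

open Classical in
/-- Removing the last steps (at the head of the list) with labels satisfying `P`. -/
noncomputable def dw (P : Lab N → Prop) : List (Step N) → List (Step N)
  | [] => []
  | s :: w => if P s.1 then dw P w else s :: w

/-- `x` is obtained from `t` by adding steps with labels satisfying `P`. -/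
def Pre (P : Lab N → Prop) (x t : List (Step N)) : Prop :=
  ∃ u, x = u ++ t ∧ ∀ s ∈ u, P s.1

theorem pre_dw (P : Lab N → Prop) (x : List (Step N)) : Pre P x (dw P x) := by
  induction x with
  | nil => exact ⟨[], rfl, by simp⟩
  | cons s w ih =>
    unfold dw
    split_ifs with h
    · obtain ⟨u, hu, hP⟩ := ih
      refine ⟨s :: u, by rw [List.cons_append, ← hu], ?_⟩
      intro s' hs'
      rcases List.mem_cons.1 hs' with rfl | hs'
      · exact h
      · exact hP s' hs'
    · exact ⟨[], rfl, by simp⟩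

theorem dw_of_pre (P : Lab N → Prop) (x t : List (Step N)) (h : Pre P x t) :
    dw P x = dw P t := by
  obtain ⟨u, rfl, hP⟩ := h
  induction u with
  | nil => rfl
  | cons s u ih =>
    rw [List.cons_append, dw, if_pos (hP s List.mem_cons_self)]
    exact ih fun s' hs' => hP s' (List.mem_cons_of_mem _ hs')

theorem pre_and_of_suffix (P Q : Lab N → Prop) (x t t' : List (Step N)) (h : Pre P x t)
    (h' : Pre Q x t') (hs : t <:+ t') : Pre (fun l => P l ∧ Q l) x t' := by
  obtain ⟨u, hu, hP⟩ := h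
  obtain ⟨u', hu', hQ⟩ := h'
  obtain ⟨s, rfl⟩ := hs
  refine ⟨u', hu', fun r hr => ⟨hP r ?_, hQ r hr⟩⟩
  have : u = u' ++ s := by
    have h1 : u ++ t = (u' ++ s) ++ t := by rw [← hu, hu', List.append_assoc]
    exact List.append_cancel_right h1
  rw [this]
  exact List.mem_append_left _ hr

theorem dw_and (P Q : Lab N → Prop) (x y : List (Step N)) (h : dw P x = dw P y)
    (h' : dw Q x = dw Q y) : dw (fun l => P l ∧ Q l) x = dw (fun l => P l ∧ Q l) y := by
  have hx := pre_dw P x
  have hy := pre_dw P y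
  have hx' := pre_dw Q x
  have hy' := pre_dw Q y
  rw [← h] at hy
  rw [← h'] at hy'
  have hsx : dw P x <:+ x := by
    obtain ⟨u, hu, _⟩ := hx
    exact ⟨u, hu.symm⟩
  have hsx' : dw Q x <:+ x := by
    obtain ⟨u, hu, _⟩ := hx'
    exact ⟨u, hu.symm⟩
  rcases List.suffix_or_suffix_of_suffix hsx hsx' with hs | hs
  · rw [dw_of_pre _ x _ (pre_and_of_suffix P Q x _ _ hx hx' hs),
      dw_of_pre _ y _ (pre_and_of_suffix P Q y _ _ hy hy' hs)]
  · have e : (fun l => P l ∧ Q l) = fun l => Q l ∧ P l := by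
      funext l
      exact propext and_comm
    rw [e, dw_of_pre _ x _ (pre_and_of_suffix Q P x _ _ hx' hx hs),
      dw_of_pre _ y _ (pre_and_of_suffix Q P y _ _ hy' hy hs)]

theorem dw_true (P : Lab N → Prop) (hP : ∀ l, P l) (x : List (Step N)) : dw P x = [] := by
  induction x with
  | nil => rfl
  | cons s w ih => rw [dw, if_pos (hP _), ih]

theorem dw_false (P : Lab N → Prop) (hP : ∀ l, ¬ P l) (x : List (Step N)) : dw P x = x := by
  cases x with
  | nil => rfl
  | cons s w => rw [dw, if_neg (hP _)]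

theorem dw_forall (C : N → Lab N → Prop) (S : Finset N) (x y : List (Step N))
    (h : ∀ j ∈ S, dw (C j) x = dw (C j) y) :
    dw (fun l => ∀ j ∈ S, C j l) x = dw (fun l => ∀ j ∈ S, C j l) y := by
  classical
  induction S using Finset.induction_on with
  | empty =>
    rw [dw_true _ (by simp), dw_true _ (by simp)]
  | insert a S _ ih =>
    have e : (fun l => ∀ j ∈ insert a S, C j l) = fun l => C a l ∧ ∀ j ∈ S, C j l := by
      funext l
      simp only [Finset.mem_insert, forall_eq_or_imp]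
    rw [e]
    exact dw_and _ _ _ _ (h a (Finset.mem_insert_self _ _))
      (ih fun j hj => h j (Finset.mem_insert_of_mem hj))

/-- The labels whose steps do not change the `i`-th coordinate. -/
def C (i : N) : Lab N → Prop
  | .le _ => False
  | .eps j => j = i
  | .free j => j ≠ i

/-- The profile of a path. -/
noncomputable def emb (x : List (Step N)) : N → List (Step N) := fun i => dw (C i) x

theorem emb_inj [Fintype N] [Nontrivial N] (x y : List (Step N)) (h : emb x = emb y) :
    x = y := by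
  have h1 := dw_forall C Finset.univ x y fun j _ => congrFun h j
  have hf : ∀ l : Lab N, ¬ ∀ j ∈ (Finset.univ : Finset N), C j l := by
    intro l hl
    cases l with
    | le i => exact hl i (Finset.mem_univ i)
    | eps i =>
      obtain ⟨j, hj⟩ := exists_ne i
      exact hj (hl j (Finset.mem_univ j)).symm
    | free i => exact hl i (Finset.mem_univ i) rfl
  rwa [dw_false _ hf, dw_false _ hf] at h1

variable (Γ₀ : Set (Form N))

/-- The set of formulas at the end of a path. -/
def last : List (Step N) → Set (Form N)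
  | [] => Γ₀
  | s :: _ => s.2

/-- The paths in the canonical frame starting from `Γ₀`. -/
def Ok : List (Step N) → Prop
  | [] => True
  | s :: w => IsMCS s.2 ∧ Can s.1 (last Γ₀ w) s.2 ∧ Ok w

variable {Γ₀}

theorem mcs_last (h₀ : IsMCS Γ₀) (x : List (Step N)) (hx : Ok Γ₀ x) : IsMCS (last Γ₀ x) := by
  cases x with
  | nil => exact h₀
  | cons s w => exact hx.1

theorem ok_suffix (u x : List (Step N)) (h : Ok Γ₀ (u ++ x)) : Ok Γ₀ x := by
  induction u with
  | nil => exact h
  | cons s u ih => exact ih h.2.2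

theorem ok_dw (P : Lab N → Prop) (x : List (Step N)) (h : Ok Γ₀ x) : Ok Γ₀ (dw P x) := by
  obtain ⟨u, hu, _⟩ := pre_dw P x
  rw [hu] at h
  exact ok_suffix u _ h

theorem can_append (h₀ : IsMCS Γ₀) (l₀ : Lab N) (P : Lab N → Prop)
    (hP : ∀ l, P l → ∀ Γ Δ : Set (Form N), IsMCS Γ → IsMCS Δ → Can l Γ Δ → Can l₀ Γ Δ)
    (u x : List (Step N)) (h : Ok Γ₀ (u ++ x)) (hu : ∀ s ∈ u, P s.1) :
    Can l₀ (last Γ₀ x) (last Γ₀ (u ++ x)) := by
  induction u with
  | nil => exact can_refl l₀ (mcs_last h₀ _ h)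
  | cons s u ih =>
    obtain ⟨h1, h2, h3⟩ := h
    have h4 := ih h3 fun r hr => hu r (List.mem_cons_of_mem _ hr)
    have hx := mcs_last h₀ x (ok_suffix u x h3)
    exact can_trans l₀ hx h4
      (hP s.1 (hu s List.mem_cons_self) _ _ (mcs_last h₀ _ h3) h1 h2)

theorem can_of_dw (h₀ : IsMCS Γ₀) (l₀ : Lab N) (P : Lab N → Prop)
    (hP : ∀ l, P l → ∀ Γ Δ : Set (Form N), IsMCS Γ → IsMCS Δ → Can l Γ Δ → Can l₀ Γ Δ)
    (hs : ∀ Γ Δ : Set (Form N), IsMCS Γ → IsMCS Δ → Can l₀ Γ Δ → Can l₀ Δ Γ)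
    (x y : List (Step N)) (hx : Ok Γ₀ x) (hy : Ok Γ₀ y) (h : dw P x = dw P y) :
    Can l₀ (last Γ₀ x) (last Γ₀ y) := by
  have key : ∀ z, Ok Γ₀ z → Can l₀ (last Γ₀ (dw P z)) (last Γ₀ z) := by
    intro z hz
    obtain ⟨u, hu, hPu⟩ := pre_dw P z
    have h1 : Ok Γ₀ (u ++ dw P z) := by rwa [← hu]
    have := can_append h₀ l₀ P hP u (dw P z) h1 hPu
    rwa [← hu] at this
  have h1 := key x hx
  have h2 := key y hy
  rw [← h] at h2
  exact can_trans l₀ (mcs_last h₀ x hx)
    (hs _ _ (mcs_last h₀ _ (ok_dw P x hx)) (mcs_last h₀ x hx) h1) h2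

variable (Γ₀) in
/-- The full game model built from the paths. -/
noncomputable def treeGame [Fintype N] [Nontrivial N] : Game N where
  A := fun _ => List (Step N)
  nonempty := fun _ => ⟨[]⟩
  le := fun i σ τ => σ = τ ∨ ∃ u x, Ok Γ₀ (u ++ x) ∧ (∀ s ∈ u, s.1 = Lab.le i) ∧
    σ = emb x ∧ τ = emb (u ++ x)
  le_refl := fun _ _ => Or.inl rfl
  le_trans := by
    rintro i σ τ υ (rfl | ⟨u, x, h1, h2, h3, h4⟩) (rfl | ⟨u', x', h1', h2', h3', h4'⟩)
    · exact Or.inl rfl
    · exact Or.inr ⟨u', x', h1', h2', h3', h4'⟩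
    · exact Or.inr ⟨u, x, h1, h2, h3, h4⟩
    · have hx := emb_inj _ _ (h4.symm.trans h3')
      subst hx
      refine Or.inr ⟨u' ++ u, x, ?_, ?_, h3, ?_⟩
      · rw [List.append_assoc]
        exact h1'
      · intro s hs
        rcases List.mem_append.1 hs with hs | hs
        · exact h2' s hs
        · exact h2 s hs
      · rw [List.append_assoc]
        exact h4'
  V := fun p => {σ | ∃ x, Ok Γ₀ x ∧ σ = emb x ∧ Form.atom p ∈ last Γ₀ x}

theorem truth [Fintype N] [Nontrivial N] (h₀ : IsMCS Γ₀) (φ : Form N) :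
    ∀ x, Ok Γ₀ x → ((treeGame Γ₀).Sat {σ | ∃ x, Ok Γ₀ x ∧ σ = emb x} (emb x) φ ↔
      φ ∈ last Γ₀ x) := by
  classical
  induction φ with
  | atom p =>
    intro x hx
    constructor
    · rintro ⟨y, _, hy, hp⟩
      rw [emb_inj _ _ hy]
      exact hp
    · intro hp
      exact ⟨x, hx, rfl, hp⟩
  | neg φ ih =>
    intro x hx
    simp only [Game.Sat, ih x hx]
    exact ((mcs_last h₀ x hx).neg φ).symm
  | or φ ψ ih₁ ih₂ =>
    intro x hx
    simp only [Game.Sat, ih₁ x hx, ih₂ x hx]
    exact (mcs_or (mcs_last h₀ x hx) φ ψ).symm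
  | dia l φ ih =>
    intro x hx
    simp only [Game.Sat]
    constructor
    · rintro ⟨_, ⟨y, hy, rfl⟩, hacc, hφ⟩
      rw [ih y hy] at hφ
      refine dia_of_can l φ (mcs_last h₀ x hx) (mcs_last h₀ y hy) ?_ hφ
      cases l with
      | le i =>
        rcases hacc with h | ⟨u, x', h1, h2, h3, h4⟩
        · rw [emb_inj _ _ h]
          exact can_refl _ (mcs_last h₀ y hy)
        · have e1 := emb_inj _ _ h3
          have e2 := emb_inj _ _ h4
          subst e1
          subst e2
          refine can_append h₀ _ (fun l => l = Lab.le i) ?_ u x h1 h2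
          rintro l rfl Γ Δ _ _ h
          exact h
      | eps i =>
        refine can_of_dw h₀ _ (C i) ?_ (fun Γ Δ hΓ hΔ h => can_symm_eps i hΓ hΔ h) x y hx hy hacc
        intro l hl Γ Δ hΓ _ h
        cases l with
        | le j => exact hl.elim
        | eps j =>
          cases hl
          exact h
        | free j => exact can_incl j i hl hΓ h
      | free i =>
        have h1 := dw_forall C (Finset.univ.erase i) x y fun j hj =>
          hacc j (Finset.ne_of_mem_erase hj)
        refine can_of_dw h₀ _ _ ?_ (fun Γ Δ hΓ hΔ h => can_symm_free i hΓ hΔ h) x y hx hy h1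
        intro l hl Γ Δ hΓ _ h
        obtain ⟨j, hj⟩ := exists_ne i
        have hj' : j ∈ (Finset.univ : Finset N).erase i :=
          Finset.mem_erase.2 ⟨hj, Finset.mem_univ j⟩
        cases l with
        | le m => exact (hl j hj').elim
        | eps m =>
          have hm : m = j := hl j hj'
          subst hm
          refine can_two i m hj.symm ?_ hΓ h
          intro k
          by_cases hk : k = i
          · exact Or.inl hk
          · exact Or.inr (hl k (Finset.mem_erase.2 ⟨hk, Finset.mem_univ k⟩)).symm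
        | free m =>
          have hm : m = i := by
            by_contra hc
            exact hl m (Finset.mem_erase.2 ⟨hc, Finset.mem_univ m⟩) rfl
          rw [← hm]
          exact h
    · intro h
      obtain ⟨Δ, hΔ, hcan, hφ⟩ := exists_can l φ (mcs_last h₀ x hx) h
      have hy : Ok Γ₀ ((l, Δ) :: x) := ⟨hΔ, hcan, hx⟩
      refine ⟨emb ((l, Δ) :: x), ⟨_, hy, rfl⟩, ?_, (ih _ hy).2 hφ⟩
      cases l with
      | le i => exact Or.inr ⟨[(.le i, Δ)], x, hy, by simp, rfl, rfl⟩
      | eps i =>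
        change dw (C i) x = dw (C i) ((Lab.eps i, Δ) :: x)
        rw [dw, if_pos (show C i (Lab.eps i) from rfl)]
      | free i =>
        intro j hj
        change dw (C j) x = dw (C j) ((Lab.free i, Δ) :: x)
        rw [dw, if_pos (show C j (Lab.free i) from hj.symm)]

end Tree

/-- **Axiomatization of `GGM_N`.** For every finite set `N` with at least two players, a formula
of `L_N` is valid on all general game models for `N` iff it is derivable in the system `Prov`. -/
theorem result (N : Type) [Fintype N] [Nontrivial N] (φ : Form N) : Valid φ ↔ Prov φ := by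
  constructor
  · intro h
    by_contra hp
    have hnd : ¬ Ded (∅ : Set (Form N)) φ := by
      rintro ⟨L, hL, hLp⟩
      exact hp (prov_foldr φ L hLp fun ψ hψ => absurd (hL ψ hψ) (Set.notMem_empty ψ))
    obtain ⟨Γ₀, _, h₀, hφ⟩ := lindenbaum _ _ hnd
    have := h (treeGame Γ₀) {σ | ∃ x, Ok Γ₀ x ∧ σ = emb x} (emb []) ⟨[], trivial, rfl⟩
    rw [truth h₀ φ [] trivial] at this
    exact hφ this
  · exact soundness φ

end Pool.Agent.Results.MP_4a7d17_lc.GameLogic
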